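import Mathlib

/-!
Exact patterns from frequent patterns (combinatorics).  To every `n` in a finite set `B` there
belongs a set `E n` of at most `K` elements of `V`.  All but few of the tuples `y` of elements of
`U ⊆ V` which are contained in many `E n` have the property that for every set `J` of indices one
set `E'` with `y i ∈ E'` exactly for `i ∈ J` is equal to many of the sets `E n`.
-/

set_option autoImplicit false

namespace Pool.Agent.T2q87.RX

open Finset

/-- the number of the `n` with `S ⊆ E n` -/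
def cc (B : Finset ℕ) (E : ℕ → Finset ℕ) (S : Finset ℕ) : ℕ := (B.filter (fun n => S ⊆ E n)).card

/-- the number of the `n` with `E n = S` -/
def ce (B : Finset ℕ) (E : ℕ → Finset ℕ) (S : Finset ℕ) : ℕ := (B.filter (fun n => E n = S)).card

theorem cc_anti {B : Finset ℕ} {E : ℕ → Finset ℕ} {S S' : Finset ℕ} (h : S ⊆ S') :
    cc B E S' ≤ cc B E S := by
  unfold cc
  apply card_le_card
  intro n hn
  rw [mem_filter] at hn ⊢
  exact ⟨hn.1, h.trans hn.2⟩

/-- the number of the subsets with at most `K` elements -/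
theorem card_small (V : Finset ℕ) (K : ℕ) :
    (V.powerset.filter (fun S => S.card ≤ K)).card ≤ (V.card + 1) ^ K := by
  classical
  have h1 : V.powerset.filter (fun S => S.card ≤ K) =
      (range (K + 1)).biUnion (fun i => V.powersetCard i) := by
    ext S
    rw [mem_filter, mem_powerset, mem_biUnion]
    constructor
    · rintro ⟨h1, h2⟩
      exact ⟨S.card, mem_range.2 (by omega), mem_powersetCard.2 ⟨h1, rfl⟩⟩
    · rintro ⟨i, hi, hS⟩
      rw [mem_powersetCard] at hS
      rw [mem_range] at hi
      exact ⟨hS.1, by omega⟩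
  rw [h1]
  calc _ ≤ ∑ i ∈ range (K + 1), (V.powersetCard i).card := card_biUnion_le
    _ = ∑ i ∈ range (K + 1), V.card.choose i := by
        apply sum_congr rfl
        intro i _
        rw [card_powersetCard]
    _ ≤ ∑ i ∈ range (K + 1), V.card ^ i * 1 ^ (K - i) * K.choose i := by
        apply sum_le_sum
        intro i hi
        rw [mem_range] at hi
        rw [one_pow, mul_one]
        have h2 : 1 ≤ K.choose i := Nat.choose_pos (by omega)
        calc V.card.choose i ≤ V.card ^ i := Nat.choose_le_pow _ _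
          _ = V.card ^ i * 1 := (mul_one _).symm
          _ ≤ V.card ^ i * K.choose i := Nat.mul_le_mul_left _ h2
    _ = (V.card + 1) ^ K := (add_pow _ _ _).symm

/-- few `v` are in a positive proportion of the `E n` -/
theorem few {B : Finset ℕ} {E : ℕ → Finset ℕ} {K : ℕ} (hE : ∀ n ∈ B, (E n).card ≤ K)
    (U S : Finset ℕ) (R : ℕ) (hS : 0 < cc B E S) :
    (U.filter (fun v => cc B E S ≤ R * cc B E (insert v S))).card ≤ R * K := by
  classical
  set U' := U.filter (fun v => cc B E S ≤ R * cc B E (insert v S)) with hU'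
  have h1 : ∑ v ∈ U', cc B E (insert v S) ≤ K * cc B E S := by
    have h2 : ∑ v ∈ U', cc B E (insert v S) =
        ∑ n ∈ B.filter (fun n => S ⊆ E n), (U'.filter (fun v => v ∈ E n)).card := by
      have h3 : ∀ v ∈ U', cc B E (insert v S) =
          ((B.filter (fun n => S ⊆ E n)).filter (fun n => v ∈ E n)).card := by
        intro v _
        unfold cc
        congr 1
        ext n
        simp only [mem_filter, insert_subset_iff]
        tauto
      rw [sum_congr rfl h3]
      simp only [card_filter]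
      exact sum_comm
    rw [h2]
    calc _ ≤ ∑ _n ∈ B.filter (fun n => S ⊆ E n), K := by
          apply sum_le_sum
          intro n hn
          refine le_trans (card_le_card ?_) (hE n (mem_filter.1 hn).1)
          intro v hv
          exact (mem_filter.1 hv).2
      _ = K * cc B E S := by
          rw [sum_const, smul_eq_mul, mul_comm]
          rfl
  have h2 : U'.card * cc B E S ≤ R * (K * cc B E S) := by
    calc U'.card * cc B E S = ∑ _v ∈ U', cc B E S := by rw [sum_const, smul_eq_mul]
      _ ≤ ∑ v ∈ U', R * cc B E (insert v S) := by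
          apply sum_le_sum
          intro v hv
          exact (mem_filter.1 hv).2
      _ = R * ∑ v ∈ U', cc B E (insert v S) := by rw [mul_sum]
      _ ≤ _ := Nat.mul_le_mul_left R h1
  rw [← mul_assoc] at h2
  exact Nat.le_of_mul_le_mul_right h2 hS

open Classical in
/-- the tuples at which the pattern `J` is attracted by the index `i` -/
noncomputable def BJ (k : ℕ) (U B : Finset ℕ) (E : ℕ → Finset ℕ) (R : ℕ) (J : Finset (Fin (k + 1)))
    (i : Fin (k + 1)) : Finset (Fin (k + 1) → ℕ) :=
  (Fintype.piFinset (fun _ : Fin (k + 1) => U)).filter (fun y =>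
    0 < cc B E (J.image y) ∧ cc B E (J.image y) ≤ R * cc B E (insert (y i) (J.image y)))

theorem BJ_card {k K R : ℕ} {U B : Finset ℕ} {E : ℕ → Finset ℕ} (hE : ∀ n ∈ B, (E n).card ≤ K)
    (J : Finset (Fin (k + 1))) (i : Fin (k + 1)) (hi : i ∉ J) :
    (BJ k U B E R J i).card ≤ R * K * U.card ^ k := by
  classical
  set φ : (Fin (k + 1) → ℕ) → (Fin k → ℕ) := fun f j => f (i.succAbove j) with hφ
  have h1 : (BJ k U B E R J i).card ≤ R * K * ((BJ k U B E R J i).image φ).card := by
    apply card_le_mul_card_image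
    intro a _
    rcases ((BJ k U B E R J i).filter (fun x => φ x = a)).eq_empty_or_nonempty with h0 | ⟨f0, hf0⟩
    · rw [h0]; simp
    obtain ⟨hf1, hf2⟩ := mem_filter.1 hf0
    unfold BJ at hf1
    obtain ⟨hf3, hf4, hf5⟩ := mem_filter.1 hf1
    refine le_trans ?_ (few hE U (J.image f0) R hf4)
    apply card_le_card_of_injOn (fun f => f i)
    · intro f hf
      rw [mem_coe] at hf
      obtain ⟨g1, g2⟩ := mem_filter.1 hf
      unfold BJ at g1
      obtain ⟨g3, g4, g5⟩ := mem_filter.1 g1
      have hcong : J.image f = J.image f0 := by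
        apply image_congr
        intro j hj
        have hji : j ≠ i := fun h => hi (h ▸ hj)
        obtain ⟨j', rfl⟩ := Fin.exists_succAbove_eq hji
        have := congrFun (g2.trans hf2.symm) j'
        exact this
      rw [hcong] at g5
      rw [mem_coe, mem_filter]
      exact ⟨Fintype.mem_piFinset.1 g3 i, g5⟩
    · intro f hf f' hf' h
      rw [mem_coe] at hf hf'
      have g2 := (mem_filter.1 hf).2
      have g2' := (mem_filter.1 hf').2
      ext1 j
      by_cases hji : j = i
      · rw [hji]; exact h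
      · obtain ⟨j', rfl⟩ := Fin.exists_succAbove_eq hji
        exact congrFun (g2.trans g2'.symm) j'
  refine h1.trans (Nat.mul_le_mul_left _ ?_)
  have h2 : (BJ k U B E R J i).image φ ⊆ Fintype.piFinset (fun _ : Fin k => U) := by
    intro a ha
    obtain ⟨f, hf, rfl⟩ := mem_image.1 ha
    unfold BJ at hf
    rw [Fintype.mem_piFinset]
    intro j
    exact Fintype.mem_piFinset.1 (mem_filter.1 hf).1 _
  refine (card_le_card h2).trans (le_of_eq ?_)
  rw [Fintype.card_piFinset]
  simp

/-- exact sets for one tuple and one pattern -/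
theorem exact_one {k K : ℕ} {V B : Finset ℕ} {E : ℕ → Finset ℕ}
    (hE : ∀ n ∈ B, E n ⊆ V ∧ (E n).card ≤ K) (T T' : ℝ) (hT : 0 < T)
    (hTT : 2 * (((V.card : ℝ) + 1) ^ K * T') ≤ T) (y : Fin (k + 1) → ℕ)
    (hy : T ≤ cc B E (univ.image y)) (J : Finset (Fin (k + 1)))
    (hJ : ∀ i ∉ J, 2 * (k + 1) * cc B E (insert (y i) (J.image y)) < cc B E (J.image y)) :
    ∃ E' ⊆ V, E'.card ≤ K ∧ (∀ i, y i ∈ E' ↔ i ∈ J) ∧ T' ≤ ce B E E' := by
  classical
  set S := J.image y with hS
  set R : Finset ℕ := B.filter (fun n => S ⊆ E n ∧ ∀ i ∉ J, y i ∉ E n) with hR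
  have hcc : T ≤ cc B E S := hy.trans (by exact_mod_cast cc_anti (image_subset_image (subset_univ J)))
  -- the size of `R`
  have h1 : cc B E S ≤ R.card + ∑ i ∈ univ.filter (fun i => i ∉ J), cc B E (insert (y i) S) := by
    have h2 : B.filter (fun n => S ⊆ E n) ⊆ R ∪ (univ.filter (fun i => i ∉ J)).biUnion
        (fun i => B.filter (fun n => insert (y i) S ⊆ E n)) := by
      intro n hn
      rw [mem_filter] at hn
      by_cases h : ∀ i ∉ J, y i ∉ E n
      · exact mem_union_left _ (mem_filter.2 ⟨hn.1, hn.2, h⟩)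
      · push Not at h
        obtain ⟨i, hi1, hi2⟩ := h
        refine mem_union_right _ (mem_biUnion.2 ⟨i, mem_filter.2 ⟨mem_univ _, hi1⟩, ?_⟩)
        exact mem_filter.2 ⟨hn.1, insert_subset_iff.2 ⟨hi2, hn.2⟩⟩
    unfold cc
    refine (card_le_card h2).trans ((card_union_le _ _).trans ?_)
    exact Nat.add_le_add_left card_biUnion_le _
  have h2 : 2 * (k + 1) * ∑ i ∈ univ.filter (fun i => i ∉ J), cc B E (insert (y i) S) ≤
      (k + 1) * cc B E S := by
    calc _ = ∑ i ∈ univ.filter (fun i => i ∉ J), 2 * (k + 1) * cc B E (insert (y i) S) := by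
          rw [mul_sum]
      _ ≤ ∑ _i ∈ univ.filter (fun i : Fin (k + 1) => i ∉ J), cc B E S := by
          apply sum_le_sum
          intro i hi
          exact (hJ i (mem_filter.1 hi).2).le
      _ = (univ.filter (fun i : Fin (k + 1) => i ∉ J)).card * cc B E S := by
          rw [sum_const, smul_eq_mul]
      _ ≤ (k + 1) * cc B E S := by
          apply Nat.mul_le_mul_right
          refine (card_filter_le _ _).trans (le_of_eq ?_)
          rw [card_univ, Fintype.card_fin]
  have h3 : cc B E S ≤ 2 * R.card := by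
    have h4 : (k + 1) * (2 * ∑ i ∈ univ.filter (fun i => i ∉ J), cc B E (insert (y i) S)) ≤
        (k + 1) * cc B E S := by
      refine le_trans (le_of_eq ?_) h2
      ring
    have h5 := Nat.le_of_mul_le_mul_left h4 (by omega)
    omega
  have h3' : (cc B E S : ℝ) ≤ 2 * R.card := by exact_mod_cast h3
  have hRT : T ≤ 2 * R.card := hcc.trans h3'
  -- pigeonhole
  set P : Finset (Finset ℕ) := (V.powerset.filter (fun S => S.card ≤ K)).filter
    (fun S => ∀ i, y i ∈ S ↔ i ∈ J) with hP
  have hPc : (P.card : ℝ) ≤ ((V.card : ℝ) + 1) ^ K := by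
    have h4 : P.card ≤ (V.card + 1) ^ K := by
      rw [hP]
      exact (card_filter_le _ _).trans (card_small V K)
    exact_mod_cast h4
  have hmap : ∀ n ∈ R, E n ∈ P := by
    intro n hn
    rw [hR, mem_filter] at hn
    obtain ⟨hnB, hn1, hn2⟩ := hn
    obtain ⟨e1, e2⟩ := hE n hnB
    rw [hP, mem_filter, mem_filter, mem_powerset]
    refine ⟨⟨e1, e2⟩, fun i => ⟨fun hi => ?_, fun hi => hn1 (mem_image_of_mem y hi)⟩⟩
    by_contra hc
    exact hn2 i hc hi
  by_contra hcon
  push Not at hcon
  have h4 : (R.card : ℝ) ≤ ∑ S' ∈ P, (ce B E S' : ℝ) := by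
    have h5 : R.card = ∑ S' ∈ P, (R.filter (fun n => E n = S')).card :=
      card_eq_sum_card_fiberwise hmap
    rw [h5]
    push_cast
    apply sum_le_sum
    intro S' _
    unfold ce
    rw [Nat.cast_le]
    apply card_le_card
    apply filter_subset_filter
    rw [hR]
    exact filter_subset _ _
  have hPne : P.Nonempty := by
    have h5 : 0 < R.card := by
      by_contra hc
      have : R.card = 0 := by omega
      rw [this] at hRT
      norm_num at hRT
      linarith
    obtain ⟨n, hn⟩ := card_pos.1 h5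
    exact ⟨E n, hmap n hn⟩
  have h5 : ∑ S' ∈ P, (ce B E S' : ℝ) < ∑ _S' ∈ P, T' := by
    apply sum_lt_sum_of_nonempty hPne
    intro S' hS'
    rw [hP, mem_filter, mem_filter, mem_powerset] at hS'
    exact hcon S' hS'.1.1 hS'.1.2 hS'.2
  rw [sum_const, nsmul_eq_mul] at h5
  have hT'0 : 0 ≤ T' := by
    by_contra hc
    push Not at hc
    obtain ⟨S', hS'⟩ := hPne
    rw [hP, mem_filter, mem_filter, mem_powerset] at hS'
    have h6 := hcon S' hS'.1.1 hS'.1.2 hS'.2
    have h7 : (0 : ℝ) ≤ ce B E S' := Nat.cast_nonneg _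
    linarith
  have h6 : (P.card : ℝ) * T' ≤ ((V.card : ℝ) + 1) ^ K * T' := mul_le_mul_of_nonneg_right hPc hT'0
  linarith

open Classical in
/-- **exact patterns for all but few tuples** -/
theorem patt (k K : ℕ) (V U B : Finset ℕ) (E : ℕ → Finset ℕ)
    (hE : ∀ n ∈ B, E n ⊆ V ∧ (E n).card ≤ K) (T T' : ℝ) (hT : 0 < T)
    (hTT : 2 * (((V.card : ℝ) + 1) ^ K * T') ≤ T) :
    ((Fintype.piFinset (fun _ : Fin (k + 1) => U)).filter (fun y =>
      T ≤ cc B E (univ.image y) ∧ ¬ ∀ J : Finset (Fin (k + 1)), ∃ E' ⊆ V, E'.card ≤ K ∧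
        (∀ i, y i ∈ E' ↔ i ∈ J) ∧ T' ≤ ce B E E')).card ≤
      2 ^ (k + 1) * (k + 1) * (2 * (k + 1) * K * U.card ^ k) := by
  have hsub : ((Fintype.piFinset (fun _ : Fin (k + 1) => U)).filter (fun y =>
      T ≤ cc B E (univ.image y) ∧ ¬ ∀ J : Finset (Fin (k + 1)), ∃ E' ⊆ V, E'.card ≤ K ∧
        (∀ i, y i ∈ E' ↔ i ∈ J) ∧ T' ≤ ce B E E')) ⊆
      ((univ : Finset (Finset (Fin (k + 1)) × Fin (k + 1))).filter (fun x => x.2 ∉ x.1)).biUnion
        (fun x => BJ k U B E (2 * (k + 1)) x.1 x.2) := by
    intro y hy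
    rw [mem_filter] at hy
    obtain ⟨hyU, hyT, hyJ⟩ := hy
    by_contra hc
    apply hyJ
    intro J
    apply exact_one hE T T' hT hTT y hyT J
    intro i hi
    by_contra hc2
    push Not at hc2
    apply hc
    refine mem_biUnion.2 ⟨(J, i), mem_filter.2 ⟨mem_univ _, hi⟩, ?_⟩
    unfold BJ
    rw [mem_filter]
    refine ⟨hyU, ?_, hc2⟩
    have h1 : (cc B E (univ.image y) : ℝ) ≤ cc B E (J.image y) := by
      exact_mod_cast cc_anti (image_subset_image (subset_univ J))
    have h2 : (0 : ℝ) < cc B E (J.image y) := by linarith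
    exact_mod_cast h2
  refine (card_le_card hsub).trans (card_biUnion_le.trans ?_)
  calc _ ≤ ∑ _x ∈ (univ : Finset (Finset (Fin (k + 1)) × Fin (k + 1))).filter
        (fun x => x.2 ∉ x.1), 2 * (k + 1) * K * U.card ^ k := by
        apply sum_le_sum
        intro x hx
        exact BJ_card (fun n hn => (hE n hn).2) x.1 x.2 (mem_filter.1 hx).2
    _ = ((univ : Finset (Finset (Fin (k + 1)) × Fin (k + 1))).filter
        (fun x => x.2 ∉ x.1)).card * (2 * (k + 1) * K * U.card ^ k) := by
        rw [sum_const, smul_eq_mul]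
    _ ≤ _ := by
        apply Nat.mul_le_mul_right
        refine (card_filter_le _ _).trans (le_of_eq ?_)
        rw [card_univ, Fintype.card_prod, Fintype.card_finset, Fintype.card_fin]

end Pool.Agent.T2q87.RX
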