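import Pool.Agent.T2q87.RX.Hit

/-!
Exact clusters of primes isolated by record gaps: every large finite set `V` of multiples of `M` in the record
window is covered by few sets almost all of whose `(k+1)`-tuples have all `2^(k+1)` patterns.
-/

set_option autoImplicit false
set_option maxHeartbeats 4000000

namespace Pool.Agent.T2q87.RX

open Finset Filter
open Pool.Agent.H312R2.RG (ev_ff)
open Pool.Agent.H256R2.SC (ff)
open Pool.Agent.N646.AC

open Classical in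
/-- the integers `n ≡ a (mod q)` of `(X, 3 X]` such that the primes at distance at most `G` from `n` are exactly the
numbers `n + e` with `e ∈ E`, and no prime `p` satisfies `|j p - i n| ≤ G` with `1 ≤ i, j ≤ J`, `i ≠ j` -/
noncomputable def Ex (G X : ℝ) (E : Finset ℕ) (J q a : ℕ) : Finset ℕ :=
  (range (⌊3 * X⌋₊ + 1)).filter (fun n => X < n ∧ (n : ℝ) ≤ 3 * X ∧ n ≡ a [MOD q] ∧
    (∀ p : ℕ, (p.Prime ∧ |(p : ℝ) - n| ≤ G) ↔ ∃ e ∈ E, p = n + e) ∧
    ∀ i j : ℕ, 1 ≤ i → i ≤ J → 1 ≤ j → j ≤ J → i ≠ j → ∀ p : ℕ, p.Prime → G < |(j : ℝ) * p - i * n|)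

/-- every subset of the entries of `y` is the intersection of the set of the entries with an exact cluster -/
def AllPat (G X : ℝ) (V : Finset ℕ) (K J q a : ℕ) {k : ℕ} (y : Fin (k + 1) → ℕ) : Prop :=
  ∀ I : Finset (Fin (k + 1)), ∃ E : Finset ℕ, E ⊆ V ∧ E.card ≤ K ∧ (∀ i, y i ∈ E ↔ i ∈ I) ∧
    X ^ (5 / 6 : ℝ) ≤ ((Ex G X E J q a).card : ℝ)

theorem ce_le_Ex {G X : ℝ} {V : Finset ℕ} {K J q a : ℕ} (hV : ∀ v ∈ V, (v : ℝ) ≤ G) (E : Finset ℕ) :
    ce (Bs G X V K J q a) (Es V) E ≤ (Ex G X E J q a).card := by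
  classical
  unfold ce
  apply card_le_card
  intro n hn
  rw [mem_filter, mem_Bs] at hn
  obtain ⟨⟨h1, h2, h3, h4, h5, h6⟩, h7⟩ := hn
  unfold Ex
  rw [mem_filter]
  refine ⟨mem_range.2 (Nat.lt_succ_of_le (Nat.le_floor h2)), h1, h2, h3, fun p => ⟨?_, ?_⟩, h6⟩
  · rintro ⟨hp, hpn⟩
    obtain ⟨v, hv, e⟩ := h5 p hp hpn
    refine ⟨v, ?_, e⟩
    rw [← h7]
    unfold Es
    rw [mem_filter]
    exact ⟨hv, e ▸ hp⟩
  · rintro ⟨e, he, rfl⟩
    rw [← h7] at he
    unfold Es at he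
    rw [mem_filter] at he
    refine ⟨he.2, ?_⟩
    push_cast
    rw [add_sub_cancel_left, abs_of_nonneg (Nat.cast_nonneg _)]
    exact hV e he.1

open Classical in
theorem exact_clusters : ∃ ρ : ℝ, 0 < ρ ∧ ∀ q : ℕ, Squarefree q → ∀ (k J : ℕ) (ε : ℝ), 0 < ε →
    ∃ (M K n₀ m : ℕ) (c : ℝ), 1 ≤ M ∧ q ∣ M ∧ 1 ≤ m ∧ 0 < c ∧ ∀ a : ℕ, a.Coprime q →
      ∀ᶠ X : ℝ in atTop, ∀ V : Finset ℕ, n₀ ≤ V.card → (∀ v ∈ V, M ∣ v ∧ (v : ℝ) ≤ c * ff X) →
        ∃ U : Fin m → Finset ℕ,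
          (∀ j, U j ⊆ V ∧ (((Fintype.piFinset (fun _ : Fin (k + 1) => U j)).filter (fun y =>
            Function.Injective y ∧ ¬ AllPat (c * ff X) X V K J q a y)).card : ℝ) ≤
              ε * ((U j).card : ℝ) ^ (k + 1)) ∧
          ((V.filter (fun v => ((univ.filter (fun j => v ∈ U j)).card : ℝ) < (ρ - ε) * m)).card : ℝ) ≤
            ε * V.card := by
  obtain ⟨lam, hlam, h⟩ := hitR
  have hlam0 : 0 < lam := by linarith
  refine ⟨1 / lam, by positivity, fun q hq k J ε hε => ?_⟩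
  obtain ⟨Kf, h⟩ := h q hq J
  obtain ⟨m, M₁, n₁, κ, hm, hκ, hcov⟩ := cover hlam k (ε / 2) (by positivity) Kf
  obtain ⟨M, K, hM, hqM, c, hc, h⟩ := h M₁
  set D : ℕ := 2 ^ (k + 1) * (k + 1) * (2 * (k + 1) * K) with hD
  refine ⟨M, K, max n₁ ⌈(D : ℝ) / (ε / 2) / κ⌉₊, m, c, hM, hqM, hm, hc, fun a ha => ?_⟩
  -- the powers
  have hpw : ∀ᶠ X : ℝ in atTop, 2 * (((Real.log X) ^ 2 + 2) ^ K * X ^ (5 / 6 : ℝ)) ≤ X ^ (6 / 7 : ℝ) := by
    filter_upwards [Real.tendsto_log_atTop.eventually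
      (Pool.Agent.H378R2.ev_pow_exp (2 * K) (1 / 42) (2 * 3 ^ K) (by norm_num)),
      Real.tendsto_log_atTop.eventually_ge_atTop 1, eventually_gt_atTop 0] with X h1 h2 h3
    have e : X ^ (6 / 7 : ℝ) = X ^ (1 / 42 : ℝ) * X ^ (5 / 6 : ℝ) := by
      rw [← Real.rpow_add h3]
      norm_num
    have e2 : X ^ (1 / 42 : ℝ) = Real.exp (1 / 42 * Real.log X) := by
      rw [Real.rpow_def_of_pos h3, mul_comm]
    rw [e, e2]
    have h4 : (Real.log X ^ 2 + 2) ^ K ≤ 3 ^ K * Real.log X ^ (2 * K) := by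
      rw [pow_mul, ← mul_pow]
      apply pow_le_pow_left₀ (by positivity)
      nlinarith
    calc 2 * ((Real.log X ^ 2 + 2) ^ K * X ^ (5 / 6 : ℝ)) ≤
        2 * (3 ^ K * Real.log X ^ (2 * K) * X ^ (5 / 6 : ℝ)) := by
          apply mul_le_mul_of_nonneg_left _ (by norm_num)
          exact mul_le_mul_of_nonneg_right h4 (by positivity)
      _ = (2 * 3 ^ K * Real.log X ^ (2 * K)) * X ^ (5 / 6 : ℝ) := by ring
      _ ≤ _ := mul_le_mul_of_nonneg_right h1 (by positivity)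
  filter_upwards [h a ha, hpw, ev_ff c hc, eventually_ge_atTop 2] with X hX hpw hff hX2
  obtain ⟨hff1, hff2, hff3⟩ := hff
  intro V hVn hV
  have hVG : ∀ v ∈ V, (v : ℝ) ≤ c * ff X := fun v hv => (hV v hv).2
  obtain ⟨A, hA, hcovA⟩ := hcov ℕ V _ ((le_max_left _ _).trans hVn) (by
    intro F F' hFF hF
    refine hF.trans ?_
    exact_mod_cast cc_anti hFF) (hX V hV)
  refine ⟨A, fun j => ?_, ?_⟩
  · obtain ⟨hA1, hA2, hA3⟩ := hA j
    refine ⟨hA1, ?_⟩
    set B := Bs (c * ff X) X V K J q a with hB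
    have hBE : ∀ n ∈ B, Es V n ⊆ V ∧ (Es V n).card ≤ K := by
      intro n hn
      rw [hB, mem_Bs] at hn
      exact ⟨filter_subset _ _, hn.2.2.2.1⟩
    have hVc : (V.card : ℝ) ≤ Real.log X ^ 2 + 1 := by
      have h1 : V ⊆ range (⌊Real.log X ^ 2⌋₊ + 1) := by
        intro v hv
        rw [mem_range, Nat.lt_succ_iff]
        apply Nat.le_floor
        have := hVG v hv
        linarith
      have h2 := card_le_card h1
      rw [card_range] at h2
      have h3 : (V.card : ℝ) ≤ ⌊Real.log X ^ 2⌋₊ + 1 := by exact_mod_cast h2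
      have h4 := Nat.floor_le (show 0 ≤ Real.log X ^ 2 by positivity)
      linarith
    have hTT : 2 * (((V.card : ℝ) + 1) ^ K * X ^ (5 / 6 : ℝ)) ≤ X ^ (6 / 7 : ℝ) := by
      refine le_trans ?_ hpw
      have h1 : ((V.card : ℝ) + 1) ^ K ≤ ((Real.log X) ^ 2 + 2) ^ K :=
        pow_le_pow_left₀ (by positivity) (by linarith) K
      have h2 : 0 ≤ X ^ (5 / 6 : ℝ) := by positivity
      nlinarith
    have hp := patt k K V (A j) B (Es V) hBE (X ^ (6 / 7 : ℝ)) (X ^ (5 / 6 : ℝ)) (by positivity) hTT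
    -- the sum
    have hsub : (Fintype.piFinset (fun _ : Fin (k + 1) => A j)).filter (fun y =>
        Function.Injective y ∧ ¬ AllPat (c * ff X) X V K J q a y) ⊆
        badT k (A j) (fun F => X ^ (6 / 7 : ℝ) ≤ (cc B (Es V) F : ℝ)) ∪
        (Fintype.piFinset (fun _ : Fin (k + 1) => A j)).filter (fun y =>
          X ^ (6 / 7 : ℝ) ≤ cc B (Es V) (univ.image y) ∧ ¬ ∀ J' : Finset (Fin (k + 1)), ∃ E' ⊆ V,
          E'.card ≤ K ∧ (∀ i, y i ∈ E' ↔ i ∈ J') ∧ X ^ (5 / 6 : ℝ) ≤ ce B (Es V) E') := by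
      intro y hy
      rw [mem_filter] at hy
      obtain ⟨hy1, hy2, hy3⟩ := hy
      rw [mem_union]
      by_cases hG : X ^ (6 / 7 : ℝ) ≤ (cc B (Es V) (univ.image y) : ℝ)
      · right
        rw [mem_filter]
        refine ⟨hy1, hG, fun hall => hy3 ?_⟩
        intro I
        obtain ⟨E', h1, h2, h3, h4⟩ := hall I
        refine ⟨E', h1, h2, h3, h4.trans ?_⟩
        exact_mod_cast ce_le_Ex hVG E'
      · left
        rw [mem_badT]
        exact ⟨Fintype.mem_piFinset.1 hy1, hy2, hG⟩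
    have h5 := (card_le_card hsub).trans (card_union_le _ _)
    have h6 : (((Fintype.piFinset (fun _ : Fin (k + 1) => A j)).filter (fun y =>
        Function.Injective y ∧ ¬ AllPat (c * ff X) X V K J q a y)).card : ℝ) ≤
        ε / 2 * ((A j).card : ℝ) ^ (k + 1) + D * ((A j).card : ℝ) ^ k := by
      refine (Nat.cast_le.2 h5).trans ?_
      push_cast
      refine add_le_add hA3 ?_
      refine (Nat.cast_le.2 hp).trans (le_of_eq ?_)
      rw [hD]
      push_cast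
      ring
    rcases hA2 with hA2 | hA2
    · have h7 : (Fintype.piFinset (fun _ : Fin (k + 1) => A j)).filter (fun y =>
          Function.Injective y ∧ ¬ AllPat (c * ff X) X V K J q a y) = ∅ := by
        rw [eq_empty_iff_forall_notMem]
        intro y hy
        rw [mem_filter, Fintype.mem_piFinset, hA2] at hy
        exact absurd (hy.1 0) (notMem_empty _)
      rw [h7, card_empty, Nat.cast_zero]
      positivity
    · refine h6.trans ?_
      have h7 : (D : ℝ) / (ε / 2) ≤ ((A j).card : ℝ) := by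
        refine le_trans ?_ hA2
        have h8 : (D : ℝ) / (ε / 2) / κ ≤ V.card :=
          (Nat.le_ceil _).trans (by exact_mod_cast (le_max_right _ _).trans hVn)
        rw [div_le_iff₀ hκ] at h8
        linarith
      have h8 : (D : ℝ) ≤ ε / 2 * ((A j).card : ℝ) := by
        rw [div_le_iff₀ (by positivity)] at h7
        linarith
      have h9 : (D : ℝ) * ((A j).card : ℝ) ^ k ≤ ε / 2 * ((A j).card : ℝ) * ((A j).card : ℝ) ^ k :=
        mul_le_mul_of_nonneg_right h8 (by positivity)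
      rw [pow_succ]
      linarith
  · refine le_trans ?_ (hcovA.trans (mul_le_mul_of_nonneg_right (by linarith) (Nat.cast_nonneg _)))
    rw [Nat.cast_le]
    apply card_le_card
    intro v hv
    rw [mem_filter] at hv ⊢
    refine ⟨hv.1, hv.2.trans_le ?_⟩
    exact mul_le_mul_of_nonneg_right (by linarith) (Nat.cast_nonneg _)

end Pool.Agent.T2q87.RX
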